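import Pool.Agent.Helper90.IIC.Q

/-! # BR: the quotient graph of the wired finite volume -/

namespace IIC

open scoped BigOperators

/-- moving one coordinate towards `0` -/
theorem br_step {d : ℕ} (x : Fin d → ℤ) (i : Fin d) (s : ℤ) (hs : |s| = 1) :
    Step le (Set.univ : Set (Ed d)) x (x + (Pi.single i s : Fin d → ℤ)) := by
  have hadj : (lat d).Adj x (x + (Pi.single i s : Fin d → ℤ)) := by
    change ∑ j, |x j - (x + (Pi.single i s : Fin d → ℤ)) j| = 1
    have h : ∀ j, |x j - (x + (Pi.single i s : Fin d → ℤ)) j| = if j = i then 1 else 0 := by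
      intro j
      by_cases hj : j = i
      · subst hj
        simp [hs]
      · simp [hj]
    rw [Finset.sum_congr rfl fun j _ => h j]
    simp
  exact ⟨⟨s(x, x + (Pi.single i s : Fin d → ℤ)), hadj⟩, trivial, rfl⟩

theorem br_conn0 {d : ℕ} (x : Fin d → ℤ) : Conn le (Set.univ : Set (Ed d)) x 0 := by
  have key : ∀ (n : ℕ) (x : Fin d → ℤ), ∑ i, (x i).natAbs = n →
      Conn le (Set.univ : Set (Ed d)) x 0 := by
    intro n
    induction n with
    | zero =>
      intro x hx
      have : x = 0 := by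
        funext i
        have := (Finset.sum_eq_zero_iff.mp hx) i (Finset.mem_univ i)
        simpa using this
      rw [this]
      exact q_conn_refl _
    | succ n ih =>
      intro x hx
      obtain ⟨i, hi⟩ : ∃ i, x i ≠ 0 := by
        by_contra hcon
        push Not at hcon
        have : ∑ i, (x i).natAbs = 0 := Finset.sum_eq_zero fun i _ => by rw [hcon i]; rfl
        omega
      obtain ⟨s, hs, hs2⟩ : ∃ s : ℤ, |s| = 1 ∧ (x i + s).natAbs + 1 = (x i).natAbs := by
        rcases lt_or_gt_of_ne hi with h | h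
        · exact ⟨1, by norm_num, by omega⟩
        · exact ⟨-1, by norm_num, by omega⟩
      refine q_conn_trans (q_conn_step (br_step x i s hs)) (ih _ ?_)
      have h1 : ∑ j, ((x + (Pi.single i s : Fin d → ℤ)) j).natAbs + 1 = ∑ j, (x j).natAbs := by
        rw [← Finset.add_sum_erase _ (fun j => ((x + (Pi.single i s : Fin d → ℤ)) j).natAbs)
            (Finset.mem_univ i),
          ← Finset.add_sum_erase _ (fun j => (x j).natAbs) (Finset.mem_univ i)]
        have h2 : ∑ j ∈ Finset.univ.erase i, ((x + (Pi.single i s : Fin d → ℤ)) j).natAbs =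
            ∑ j ∈ Finset.univ.erase i, (x j).natAbs := by
          refine Finset.sum_congr rfl fun j hj => ?_
          have hj' : j ≠ i := Finset.ne_of_mem_erase hj
          simp [hj']
        rw [h2]
        have h3 : ((x + (Pi.single i s : Fin d → ℤ)) i) = x i + s := by simp
        rw [h3]
        omega
      omega
  exact key _ x rfl

theorem br_mem_ends {d : ℕ} {Λ : Finset (Ed d)} {a b : Fin d → ℤ}
    (h : Step le (Λ : Set (Ed d)) a b) : a ∈ vts Λ := by
  classical
  obtain ⟨e, he, hab⟩ := h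
  unfold vts
  rw [Finset.mem_biUnion]
  refine ⟨e, he, ?_⟩
  rw [hab, Sym2.mem_toFinset]
  exact Sym2.mem_mk_left a b

/-- every class contains `0` or an endpoint of `Λ` -/
theorem br_class {d : ℕ} (Λ : Finset (Ed d)) (x : Fin d → ℤ) :
    ∃ z ∈ insert (0 : Fin d → ℤ) ((vts Λ : Finset (Fin d → ℤ)) : Set (Fin d → ℤ)),
      qm Λ x = qm Λ z := by
  have h := br_conn0 x
  induction h using Relation.ReflTransGen.head_induction_on with
  | refl => exact ⟨0, Set.mem_insert _ _, rfl⟩
  | @head a c h _ ih =>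
    obtain ⟨e, -, hab⟩ := h
    by_cases he : e ∈ Λ
    · exact ⟨a, Set.mem_insert_of_mem _ (br_mem_ends (Λ := Λ) ⟨e, he, hab⟩), rfl⟩
    · obtain ⟨z, hz, hz2⟩ := ih
      refine ⟨z, hz, ?_⟩
      rw [← hz2]
      exact Quot.sound ⟨e, by simpa using he, hab⟩

theorem br_finite {d : ℕ} (Λ : Finset (Ed d)) : Finite (QV Λ) := by
  have hfin : (insert (0 : Fin d → ℤ)
      ((vts Λ : Finset (Fin d → ℤ)) : Set (Fin d → ℤ))).Finite :=
    (Finset.finite_toSet _).insert _
  have := hfin.to_subtype
  refine Finite.of_surjective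
    (fun z : (insert (0 : Fin d → ℤ) ((vts Λ : Finset (Fin d → ℤ)) : Set (Fin d → ℤ)) : Set _) =>
      qm Λ z.1) ?_
  intro q
  induction q using Quot.ind with
  | _ x =>
    obtain ⟨z, hz, hz2⟩ := br_class Λ x
    exact ⟨⟨z, hz⟩, hz2.symm⟩

theorem br_op {d : ℕ} {Λ T : Finset (Ed d)} {e : Ed d} :
    e ∈ op (exw Λ T) ↔ (e ∈ Λ → e ∈ T) := by
  unfold exw ext op
  by_cases h : e ∈ Λ <;> simp [h]

theorem br_conn_of_quot {d : ℕ} {Λ T : Finset (Ed d)} {x y : Fin d → ℤ}
    (h : qm Λ x = qm Λ y) : LConn (exw Λ T) x y := by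
  have h1 := q_quot_iff.mp h
  have hmono : ∀ a b, Step le ((Λ : Set (Ed d))ᶜ) a b → Step le (op (exw Λ T)) a b := by
    rintro a b ⟨e, he, hab⟩
    exact ⟨e, br_op.mpr fun h => absurd h he, hab⟩
  exact Relation.ReflTransGen.mono hmono _ _ h1

theorem br_conn {d : ℕ} {Λ : Finset (Ed d)} (T : Finset {e // e ∈ Λ}) (x y : Fin d → ℤ) :
    Conn (qe Λ) (T : Set {e // e ∈ Λ}) (qm Λ x) (qm Λ y) ↔ LConn (exw Λ (qs T)) x y := by
  constructor
  · intro h
    have key : ∀ q : QV Λ, Conn (qe Λ) (T : Set {e // e ∈ Λ}) (qm Λ x) q →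
        ∀ y, qm Λ y = q → LConn (exw Λ (qs T)) x y := by
      intro q hq
      induction hq with
      | refl => exact fun y hy => br_conn_of_quot hy.symm
      | @tail q1 q2 _ h ih =>
        intro y hy
        obtain ⟨e, he, hq⟩ := h
        obtain ⟨a, b, hab⟩ : ∃ a b, le e.1 = s(a, b) := by
          induction h : le e.1 with | _ a b => exact ⟨a, b, rfl⟩
        have hopen : e.1 ∈ op (exw Λ (qs T)) := br_op.mpr fun _ => by
          rw [qs, Finset.mem_map]
          exact ⟨e, he, rfl⟩
        unfold qe at hq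
        rw [hab, Sym2.map_mk] at hq
        rcases Sym2.eq_iff.mp hq with ⟨h1, h2⟩ | ⟨h1, h2⟩
        · have h3 := ih a h1
          refine q_conn_trans h3 (q_conn_trans (q_conn_step ⟨e.1, hopen, hab⟩) ?_)
          exact br_conn_of_quot (h2.trans hy.symm)
        · have h3 := ih b h2
          refine q_conn_trans h3 (q_conn_trans (q_conn_symm (q_conn_step ⟨e.1, hopen, hab⟩)) ?_)
          exact br_conn_of_quot (h1.trans hy.symm)
    exact key _ h y rfl
  · intro h
    unfold LConn at h
    induction h with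
    | refl => exact q_conn_refl _
    | @tail a b _ h ih =>
      obtain ⟨e, he, hab⟩ := h
      by_cases hΛ : e ∈ Λ
      · have h1 := br_op.mp he hΛ
        rw [qs, Finset.mem_map] at h1
        obtain ⟨e', he', rfl⟩ := h1
        refine q_conn_trans ih (q_conn_step ⟨e', he', ?_⟩)
        change Sym2.map (qm Λ) (le e'.1) = _
        have hab' : le e'.1 = s(a, b) := hab
        rw [hab', Sym2.map_mk]
      · have : qm Λ a = qm Λ b := Quot.sound ⟨e, by simpa using hΛ, hab⟩
        rw [← this]
        exact ih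

theorem br_ncl {d : ℕ} {Λ : Finset (Ed d)} (T : Finset {e // e ∈ Λ}) :
    ncl le (op (exw Λ (qs T))) = ncl (qe Λ) (T : Set {e // e ∈ Λ}) := by
  unfold ncl
  let f : Quot (Step le (op (exw Λ (qs T)))) → Quot (Step (qe Λ) (T : Set {e // e ∈ Λ})) :=
    Quot.lift (fun x => Quot.mk _ (qm Λ x)) fun a b h =>
      q_quot_iff.mpr ((br_conn T a b).mpr (q_conn_step h))
  refine Nat.card_congr (Equiv.ofBijective f ⟨?_, ?_⟩)
  · intro p q
    induction p using Quot.ind with
    | _ a =>
      induction q using Quot.ind with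
      | _ b =>
        intro h
        exact q_quot_iff.mpr ((br_conn T a b).mp (q_quot_iff.mp h))
  · intro q
    induction q using Quot.ind with
    | _ p =>
      induction p using Quot.ind with
      | _ a => exact ⟨Quot.mk _ a, rfl⟩

theorem br_sum {d : ℕ} {Λ : Finset (Ed d)} (g : Finset (Ed d) → ℝ) :
    ∑ T ∈ Λ.powerset, g T = ∑ T : Finset {e // e ∈ Λ}, g (qs T) := by
  classical
  symm
  refine Finset.sum_bij (fun T _ => qs T) ?_ ?_ ?_ ?_
  · intro T _
    rw [Finset.mem_powerset]
    intro e he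
    rw [qs, Finset.mem_map] at he
    obtain ⟨e', _, rfl⟩ := he
    exact e'.2
  · intro T _ T' _ h
    exact Finset.map_injective _ h
  · intro T hT
    rw [Finset.mem_powerset] at hT
    refine ⟨T.subtype (· ∈ Λ), Finset.mem_univ _, ?_⟩
    rw [qs]
    exact Finset.subtype_map_of_mem fun x hx => hT hx
  · intro T _
    rfl

theorem st_BR : ST_BR := by
  intro d Λ
  refine ⟨br_finite Λ, fun T x y => br_conn T x y, fun β A => ?_⟩
  classical
  have hw : ∀ T : Finset {e // e ∈ Λ}, wW β Λ (qs T) = fkw (qe Λ) β T := by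
    intro T
    unfold wW fkw
    rw [br_ncl, qs, Finset.card_map]
  unfold PW fkP
  rw [br_sum, br_sum]
  congr 1
  · refine Finset.sum_congr rfl fun T _ => ?_
    by_cases hA : exw Λ (qs T) ∈ A
    · rw [Set.indicator_of_mem hA, Set.indicator_of_mem (by exact hA), hw]
    · rw [Set.indicator_of_notMem hA, Set.indicator_of_notMem (by exact hA)]
  · exact Finset.sum_congr rfl fun T _ => hw T

end IIC
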