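import Pool.Agent.Helper20.IIC.Stmts

/-! # Common lemmas on connections in multigraphs -/

namespace IIC

universe u v

variable {V : Type u} {E : Type v}

theorem q_step_symm {ends : E → Sym2 V} {T : Set E} {x y : V} (h : Step ends T x y) :
    Step ends T y x := by
  obtain ⟨e, he, h⟩ := h
  exact ⟨e, he, by rw [h, Sym2.eq_swap]⟩

theorem q_conn_refl {ends : E → Sym2 V} {T : Set E} (x : V) : Conn ends T x x :=
  Relation.ReflTransGen.refl

theorem q_conn_symm {ends : E → Sym2 V} {T : Set E} {x y : V} (h : Conn ends T x y) :
    Conn ends T y x := by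
  induction h with
  | refl => exact Relation.ReflTransGen.refl
  | tail _ h ih => exact Relation.ReflTransGen.trans (Relation.ReflTransGen.single (q_step_symm h)) ih

theorem q_conn_trans {ends : E → Sym2 V} {T : Set E} {x y z : V} (h : Conn ends T x y)
    (h' : Conn ends T y z) : Conn ends T x z :=
  Relation.ReflTransGen.trans h h'

theorem q_conn_step {ends : E → Sym2 V} {T : Set E} {x y : V} (h : Step ends T x y) :
    Conn ends T x y := Relation.ReflTransGen.single h

theorem q_quot_iff {ends : E → Sym2 V} {T : Set E} {x y : V} :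
    Quot.mk (Step ends T) x = Quot.mk (Step ends T) y ↔ Conn ends T x y := by
  constructor
  · intro h
    have h1 := Quot.eqvGen_exact h
    clear h
    induction h1 with
    | rel a b h => exact q_conn_step h
    | refl a => exact q_conn_refl a
    | symm a b _ ih => exact q_conn_symm ih
    | trans a b c _ _ ih1 ih2 => exact q_conn_trans ih1 ih2
  · intro h
    induction h with
    | refl => rfl
    | tail _ h ih => exact ih.trans (Quot.sound h)

theorem q_bond_mk {ends : E → Sym2 V} {σ : V → ℤˣ} {e : E} {a b : V} (h : ends e = s(a, b)) :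
    bond ends σ e = (((σ a * σ b : ℤˣ) : ℤ) : ℝ) := by
  rw [bond, h]
  rfl

theorem q_bond_mul (ends : E → Sym2 V) (s σ : V → ℤˣ) (e : E) :
    bond ends (s * σ) e = bond ends s e * bond ends σ e := by
  obtain ⟨a, b, h'⟩ : ∃ a b, ends e = s(a, b) := by
    induction h : ends e with | _ a b => exact ⟨a, b, rfl⟩
  rw [q_bond_mk h', q_bond_mk h', q_bond_mk h']
  simp only [Pi.mul_apply, Units.val_mul, Int.cast_mul]
  ring

theorem q_two_mul (x y : V) (s σ : V → ℤˣ) : two x y (s * σ) = two x y s * two x y σ := by
  simp only [two, Pi.mul_apply, Units.val_mul, Int.cast_mul]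
  ring

end IIC
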