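import Pool.Agent.Helper90.IIC.Q

/-! # TWS, SRC, FKS -/

namespace IIC

open scoped BigOperators

/-- sums over the sets which avoid `F` -/
theorem tws_sum_ef {E : Type} [Fintype E] [DecidableEq E] (F : Finset E) (g : Finset E → ℝ) :
    ∑ T : Finset E, (ef F).indicator g T = ∑ T ∈ (Finset.univ \ F).powerset, g T := by
  classical
  have h : ∀ T : Finset E, (ef F).indicator g T =
      if T ∈ (Finset.univ \ F).powerset then g T else 0 := by
    intro T
    rw [Set.indicator_apply]
    refine if_congr ?_ rfl rfl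
    change Disjoint T F ↔ _
    rw [Finset.mem_powerset, Finset.subset_sdiff]
    exact ⟨fun h => ⟨Finset.subset_univ _, h⟩, fun h => h.2⟩
  rw [Finset.sum_congr rfl fun T _ => h T, Finset.sum_ite_mem, Finset.univ_inter]

theorem st_TWS : ST_TWS := by
  intro V _ _ E _ _ ends β F f
  rw [tws_sum_ef]
  simp only [tw, Zs]
  rw [Finset.sum_comm]
  refine Finset.sum_congr rfl fun σ _ => ?_
  rw [← Finset.mul_sum]
  congr 1
  have h := Finset.prod_one_add (f := fun e => Real.exp (β * bond ends σ e) - 1)
    (Finset.univ \ F)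
  rw [← h]
  exact Finset.prod_congr rfl fun e _ => by ring

section

variable {V : Type} {E : Type}

/-- flip of the cluster of `x` -/
noncomputable def srcF (ends : E → Sym2 V) (T : Set E) (x : V) : V → ℤˣ := by
  classical exact fun v => if Conn ends T x v then -1 else 1

theorem srcF_bond (ends : E → Sym2 V) (T : Set E) (x : V) {e : E} (he : e ∈ T) :
    bond ends (srcF ends T x) e = 1 := by
  obtain ⟨a, b, h'⟩ : ∃ a b, ends e = s(a, b) := by
    induction h : ends e with | _ a b => exact ⟨a, b, rfl⟩
  rw [q_bond_mk h']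
  have hiff : Conn ends T x a ↔ Conn ends T x b :=
    ⟨fun h => q_conn_trans h (q_conn_step ⟨e, he, h'⟩),
     fun h => q_conn_trans h (q_conn_step (q_step_symm ⟨e, he, h'⟩))⟩
  by_cases hx : Conn ends T x a
  · have hb := hiff.mp hx
    simp [srcF, hx, hb]
  · have hb : ¬ Conn ends T x b := fun h => hx (hiff.mpr h)
    simp [srcF, hx, hb]

theorem srcF_two (ends : E → Sym2 V) (T : Set E) {x y : V} (h : ¬ Conn ends T x y) :
    two x y (srcF ends T x) = -1 := by
  simp [two, srcF, h, q_conn_refl]

end

theorem st_SRC : ST_SRC := by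
  intro V _ _ E _ _ ends β T x y h
  by_contra hc
  apply h
  have h1 : tw ends β T (two x y) = -tw ends β T (two x y) := by
    conv_lhs => rw [tw]
    rw [← Equiv.sum_comp (Equiv.mulLeft (srcF ends (T : Set E) x))]
    rw [tw, ← Finset.sum_neg_distrib]
    refine Finset.sum_congr rfl fun σ _ => ?_
    rw [Equiv.coe_mulLeft, q_two_mul, srcF_two ends _ hc, neg_one_mul, neg_mul]
    congr 2
    refine Finset.prod_congr rfl fun e he => ?_
    rw [q_bond_mul, srcF_bond ends _ x (by exact_mod_cast he), one_mul]
  linarith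

theorem fks_bond_cases {V : Type} {E : Type} (ends : E → Sym2 V) (σ : V → ℤˣ) (e : E) :
    bond ends σ e = 1 ∨ bond ends σ e = -1 := by
  obtain ⟨a, b, h'⟩ : ∃ a b, ends e = s(a, b) := by
    induction h : ends e with | _ a b => exact ⟨a, b, rfl⟩
  rw [q_bond_mk h']
  rcases Int.units_eq_one_or (σ a * σ b) with h | h
  · left; simp [h]
  · right; simp [h]

/-- spin configurations constant on clusters -/
theorem fks_const_iff {V : Type} {E : Type} (ends : E → Sym2 V) (T : Set E) (σ : V → ℤˣ) :
    (∀ e ∈ T, bond ends σ e = 1) ↔ ∀ a b, Step ends T a b → σ a = σ b := by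
  constructor
  · rintro h a b ⟨e, he, hab⟩
    have h1 := h e he
    rw [q_bond_mk hab] at h1
    have h2 : (σ a * σ b : ℤˣ) = 1 := by
      have : ((σ a * σ b : ℤˣ) : ℤ) = 1 := by exact_mod_cast h1
      exact Units.ext this
    rw [mul_eq_one_iff_eq_inv, Int.units_inv_eq_self] at h2
    exact h2
  · intro h e he
    obtain ⟨a, b, h'⟩ : ∃ a b, ends e = s(a, b) := by
      induction h : ends e with | _ a b => exact ⟨a, b, rfl⟩
    rw [q_bond_mk h', h a b ⟨e, he, h'⟩]
    simp

theorem fks_card {V : Type} [Fintype V] [DecidableEq V] {E : Type} (ends : E → Sym2 V)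
    (T : Set E) : Nat.card {σ : V → ℤˣ // ∀ e ∈ T, bond ends σ e = 1} = 2 ^ ncl ends T := by
  classical
  have : Finite (Quot (Step ends T)) := Finite.of_surjective (Quot.mk _) Quot.mk_surjective
  have e1 : {σ : V → ℤˣ // ∀ e ∈ T, bond ends σ e = 1} ≃ (Quot (Step ends T) → ℤˣ) :=
    { toFun := fun σ => Quot.lift σ.1 ((fks_const_iff ends T σ.1).mp σ.2)
      invFun := fun τ => ⟨fun v => τ (Quot.mk _ v), (fks_const_iff ends T _).mpr
        fun a b h => by rw [Quot.sound h]⟩
      left_inv := fun σ => by
        apply Subtype.ext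
        rfl
      right_inv := fun τ => by
        funext q
        induction q using Quot.ind with | _ a => rfl }
  rw [Nat.card_congr e1, Nat.card_fun, ncl]
  congr 1
  rw [Nat.card_eq_fintype_card]
  rfl

theorem fks_sum {V : Type} [Fintype V] [DecidableEq V] {E : Type} [DecidableEq E]
    (ends : E → Sym2 V) (T : Finset E) (x y : V) :
    ∑ σ : V → ℤˣ, two x y σ * ∏ e ∈ T, (if bond ends σ e = 1 then (1 : ℝ) else 0) =
      (cn ends x y).indicator (fun T => (2 : ℝ) ^ ncl ends (T : Set E)) T := by
  classical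
  have hprod : ∀ σ : V → ℤˣ, ∏ e ∈ T, (if bond ends σ e = 1 then (1 : ℝ) else 0) =
      if (∀ e ∈ (T : Set E), bond ends σ e = 1) then 1 else 0 := by
    intro σ
    rw [Finset.prod_ite_zero]
    simp
  by_cases hc : Conn ends (T : Set E) x y
  · rw [Set.indicator_of_mem (by exact hc)]
    have h1 : ∀ σ : V → ℤˣ, two x y σ * ∏ e ∈ T, (if bond ends σ e = 1 then (1 : ℝ) else 0) =
        if (∀ e ∈ (T : Set E), bond ends σ e = 1) then 1 else 0 := by
      intro σ
      rw [hprod]
      split_ifs with h
      · have h2 := (fks_const_iff ends _ σ).mp h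
        have h3 : σ x = σ y := by
          induction hc with
          | refl => rfl
          | tail _ h ih => exact ih.trans (h2 _ _ h)
        rw [two, h3]
        simp
      · simp
    rw [Finset.sum_congr rfl fun σ _ => h1 σ, Finset.sum_boole]
    rw [← Fintype.card_subtype, ← Nat.card_eq_fintype_card, fks_card]
    simp
  · rw [Set.indicator_of_notMem (by exact hc)]
    have h1 : ∑ σ : V → ℤˣ, two x y σ * ∏ e ∈ T, (if bond ends σ e = 1 then (1 : ℝ) else 0) =
        -∑ σ : V → ℤˣ, two x y σ * ∏ e ∈ T, (if bond ends σ e = 1 then (1 : ℝ) else 0) := by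
      conv_lhs => rw [← Equiv.sum_comp (Equiv.mulLeft (srcF ends (T : Set E) x))]
      rw [← Finset.sum_neg_distrib]
      refine Finset.sum_congr rfl fun σ _ => ?_
      rw [Equiv.coe_mulLeft, q_two_mul, srcF_two ends _ hc, neg_one_mul, neg_mul]
      congr 2
      refine Finset.prod_congr rfl fun e he => ?_
      rw [q_bond_mul, srcF_bond ends _ x (by exact_mod_cast he), one_mul]
    linarith

theorem st_FKS : ST_FKS := by
  intro V _ _ E _ _ ends β F x y hβ
  classical
  have h1 : ∀ T : Finset E, (ef F ∩ cn ends x y).indicator (fkw ends β) T =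
      (ef F).indicator (fun T => (Real.exp (2 * β) - 1) ^ T.card *
        (cn ends x y).indicator (fun T => (2 : ℝ) ^ ncl ends (T : Set E)) T) T := by
    intro T
    rw [← Set.indicator_indicator]
    by_cases hT : T ∈ ef F
    · rw [Set.indicator_of_mem hT, Set.indicator_of_mem hT]
      by_cases hc : T ∈ cn ends x y
      · rw [Set.indicator_of_mem hc, Set.indicator_of_mem hc]
        rfl
      · rw [Set.indicator_of_notMem hc, Set.indicator_of_notMem hc, mul_zero]
    · rw [Set.indicator_of_notMem hT, Set.indicator_of_notMem hT]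
  rw [Finset.sum_congr rfl fun T _ => h1 T, tws_sum_ef]
  have h2 : ∀ T : Finset E, (Real.exp (2 * β) - 1) ^ T.card *
        (cn ends x y).indicator (fun T => (2 : ℝ) ^ ncl ends (T : Set E)) T =
      ∑ σ : V → ℤˣ, two x y σ *
        ∏ e ∈ T, ((Real.exp (2 * β) - 1) * (if bond ends σ e = 1 then (1 : ℝ) else 0)) := by
    intro T
    rw [← fks_sum, Finset.mul_sum]
    refine Finset.sum_congr rfl fun σ _ => ?_
    rw [Finset.prod_mul_distrib, Finset.prod_const]
    ring
  rw [Finset.sum_congr rfl fun T _ => h2 T, Finset.sum_comm, Zs, Finset.mul_sum]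
  refine Finset.sum_congr rfl fun σ _ => ?_
  rw [← Finset.mul_sum]
  have h3 := Finset.prod_one_add (f := fun e => (Real.exp (2 * β) - 1) *
    (if bond ends σ e = 1 then (1 : ℝ) else 0)) (Finset.univ \ F)
  rw [← h3]
  have h4 : ∀ e, 1 + (Real.exp (2 * β) - 1) * (if bond ends σ e = 1 then (1 : ℝ) else 0) =
      Real.exp β * Real.exp (β * bond ends σ e) := by
    intro e
    rcases fks_bond_cases ends σ e with h | h
    · rw [h, if_pos rfl, ← Real.exp_add]
      rw [show β + β * 1 = 2 * β by ring]
      ring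
    · rw [h, if_neg (by norm_num), ← Real.exp_add]
      rw [show β + β * -1 = 0 by ring, Real.exp_zero]
      ring
  rw [Finset.prod_congr rfl fun e _ => h4 e, Finset.prod_mul_distrib, Finset.prod_const,
    ← Real.exp_nat_mul]
  rw [mul_comm β ((Finset.univ \ F).card : ℝ)]
  ring

end IIC
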